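import Pool.Agent.H.MP_40e4cd_al.C

namespace Pool.Agent.Results.MP_40e4cd_al.Counter

open Pool.Agent.H.MP_40e4cd_al

theorem result : ∃ (n m n' m' : ℕ) (s r : Fin m → Fin n) (s' r' : Fin m' → Fin n'),
    ∀ (K : Type) [Field K],
      Nonempty (LPA K (Prod.map s s) (Prod.map r r) ≃ₐ[K] LPA K (Prod.map s' s') (Prod.map r' r')) ∧
      IsEmpty (LPA K s r ≃ₐ[K] LPA K s' r') := by
  refine ⟨4, 4, 8, 8, fun _ => 0, id, ![0, 0, 1, 2, 3, 4, 5, 6], id, fun K _ => ⟨?_, ?_⟩⟩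
  · exact L_iso (S := Fin 15)
      (ι := ![(0, 1), (0, 2), (0, 3), (1, 0), (1, 1), (1, 2), (1, 3), (2, 0), (2, 1), (2, 2),
        (2, 3), (3, 0), (3, 1), (3, 2), (3, 3)])
      (ι' := ![(7, 0), (7, 1), (7, 2), (7, 3), (7, 4), (7, 5), (7, 6), (7, 7), (0, 7), (1, 7),
        (2, 7), (3, 7), (4, 7), (5, 7), (6, 7)])
      (fun _ => rfl) (by decide) (by decide) (0, 0) 1 (by decide)
      (fun _ => rfl) (by decide) (by decide +kernel) (0, 0) 7 (by decide +kernel)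
  · exact L_not_iso (S := Fin 3) (ι := ![1, 2, 3]) (ι' := fun _ => 7)
      (fun _ => rfl) (by decide) (by decide) 0 1 (by decide)
      (fun _ => rfl) (by decide) 0 7 (by decide) 0 1 (by decide)

end Pool.Agent.Results.MP_40e4cd_al.Counter
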